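import Mathlib

/-!
The cone over a closed subalgebra `A₀` of a commutative Banach algebra `B₀`:
continuous `F : [0,1] → B₀` with values in `A₀` and `F 0` a scalar.
Every non-invertible element of the cone is a topological divisor of zero.
-/

namespace Pool.Agent.P.MP_6331ea_an

open Set Filter Topology unitInterval

/-- A boundary point of the set of units is a topological divisor of zero. -/
theorem tdz_of_mem_closure {R : Type*} [NormedCommRing R] [NormedAlgebra ℂ R] [CompleteSpace R]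
    [NormOneClass R] {a : R} (ha : ¬ IsUnit a) (hcl : a ∈ closure {u : R | IsUnit u})
    {ε : ℝ} (hε : 0 < ε) : ∃ b : R, ‖b‖ = 1 ∧ ‖a * b‖ ≤ ε := by
  have : Nontrivial R := NormOneClass.nontrivial
  obtain ⟨u, hu, hdist⟩ := Metric.mem_closure_iff.1 hcl (ε / 2) (by positivity)
  obtain ⟨u, rfl⟩ := hu
  rw [dist_eq_norm] at hdist
  have hpos : 0 < ‖((u⁻¹ : Rˣ) : R)‖ := norm_pos_iff.2 (Units.ne_zero _)
  have hge : ‖((u⁻¹ : Rˣ) : R)‖⁻¹ ≤ ‖a - u‖ := by
    by_contra hlt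
    exact ha (Units.ofNearby u a (not_le.1 hlt)).isUnit
  refine ⟨((‖((u⁻¹ : Rˣ) : R)‖⁻¹ : ℝ) : ℂ) • ((u⁻¹ : Rˣ) : R), ?_, ?_⟩
  · rw [norm_smul, Complex.norm_real, Real.norm_eq_abs, abs_of_pos (inv_pos.2 hpos),
      inv_mul_cancel₀ hpos.ne']
  · have h1 : a * ((u⁻¹ : Rˣ) : R) = (a - u) * ((u⁻¹ : Rˣ) : R) + 1 := by
      rw [sub_mul, Units.mul_inv]; ring
    rw [mul_smul_comm, norm_smul, Complex.norm_real, Real.norm_eq_abs,
      abs_of_pos (inv_pos.2 hpos), h1]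
    have h2 : ‖(a - u) * ((u⁻¹ : Rˣ) : R) + 1‖ ≤ ‖a - u‖ * ‖((u⁻¹ : Rˣ) : R)‖ + 1 := by
      calc _ ≤ ‖(a - u) * ((u⁻¹ : Rˣ) : R)‖ + ‖(1 : R)‖ := norm_add_le _ _
        _ ≤ _ := by rw [norm_one]; gcongr; exact norm_mul_le _ _
    calc _ ≤ ‖((u⁻¹ : Rˣ) : R)‖⁻¹ * (‖a - u‖ * ‖((u⁻¹ : Rˣ) : R)‖ + 1) := by gcongr
      _ = ‖a - u‖ + ‖((u⁻¹ : Rˣ) : R)‖⁻¹ := by field_simp
      _ ≤ ε := by linarith

variable {B₀ : Type*} [NormedCommRing B₀] [NormedAlgebra ℂ B₀]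

/-- The cone over `A₀`. -/
def cone (A₀ : Subalgebra ℂ B₀) : Subalgebra ℂ C(I, B₀) where
  carrier := {F | (∀ t, F t ∈ A₀) ∧ ∃ c : ℂ, F 0 = algebraMap ℂ B₀ c}
  mul_mem' := by
    rintro F G ⟨hF, c, hc⟩ ⟨hG, d, hd⟩
    exact ⟨fun t => A₀.mul_mem (hF t) (hG t), c * d, by simp [hc, hd]⟩
  add_mem' := by
    rintro F G ⟨hF, c, hc⟩ ⟨hG, d, hd⟩
    exact ⟨fun t => A₀.add_mem (hF t) (hG t), c + d, by simp [hc, hd]⟩
  algebraMap_mem' := by
    intro r
    exact ⟨fun t => A₀.algebraMap_mem r, r, rfl⟩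

theorem mem_cone {A₀ : Subalgebra ℂ B₀} {F : C(I, B₀)} :
    F ∈ cone A₀ ↔ (∀ t, F t ∈ A₀) ∧ ∃ c : ℂ, F 0 = algebraMap ℂ B₀ c := Iff.rfl

theorem isClosed_cone [NormOneClass B₀] {A₀ : Subalgebra ℂ B₀} (h : IsClosed (A₀ : Set B₀)) :
    IsClosed (cone A₀ : Set C(I, B₀)) := by
  have h1 : IsClosed {F : C(I, B₀) | ∀ t, F t ∈ A₀} := by
    rw [Set.ofPred_forall]
    exact isClosed_iInter fun t => h.preimage (continuous_eval_const t)
  have h2 : IsClosed {F : C(I, B₀) | ∃ c : ℂ, F 0 = algebraMap ℂ B₀ c} := by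
    have h3 : IsClosed (Set.range (algebraMap ℂ B₀)) :=
      (algebraMap_isometry ℂ B₀).isClosedEmbedding.isClosed_range
    have h4 := h3.preimage (continuous_eval_const (F := C(I, B₀)) (0 : I))
    convert h4 using 1
    ext F
    simp [eq_comm]
  exact h1.inter h2

/-- The tent function at `t₀` of half-width `δ`. -/
noncomputable def tent (t₀ : I) (δ : ℝ) : C(I, ℝ) :=
  ⟨fun t => max 0 (1 - |(t : ℝ) - t₀| / δ), by fun_prop⟩

theorem tent_self (t₀ : I) (δ : ℝ) : tent t₀ δ t₀ = 1 := by simp [tent]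

theorem tent_nonneg (t₀ : I) (δ : ℝ) (t : I) : 0 ≤ tent t₀ δ t := le_max_left _ _

theorem tent_le_one (t₀ : I) {δ : ℝ} (hδ : 0 < δ) (t : I) : tent t₀ δ t ≤ 1 := by
  refine max_le zero_le_one ?_
  have : 0 ≤ |(t : ℝ) - t₀| / δ := by positivity
  linarith

theorem tent_eq_zero (t₀ : I) {δ : ℝ} (hδ : 0 < δ) {t : I} (ht : δ ≤ |(t : ℝ) - t₀|) :
    tent t₀ δ t = 0 := by
  refine max_eq_left ?_
  have : 1 ≤ |(t : ℝ) - t₀| / δ := (one_le_div hδ).2 ht
  linarith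

/-- The function `t ↦ β t • b`. -/
noncomputable def bump (β : C(I, ℝ)) (b : B₀) : C(I, B₀) :=
  ⟨fun t => ((β t : ℝ) : ℂ) • b, by fun_prop⟩

theorem bump_apply (β : C(I, ℝ)) (b : B₀) (t : I) : bump β b t = ((β t : ℝ) : ℂ) • b := rfl

/-- If `F t₀ * b` is small with `‖b‖ = 1`, then `F * (tent • b)` is small. -/
theorem exists_bump (F : C(I, B₀)) (t₀ : I) (b : B₀) (hb : ‖b‖ = 1) {ε : ℝ} (hε : 0 < ε)
    (hFb : ‖F t₀ * b‖ ≤ ε) {η : ℝ} (hη : 0 < η) :
    ∃ δ, 0 < δ ∧ δ ≤ η ∧ 1 ≤ ‖bump (tent t₀ δ) b‖ ∧ ‖F * bump (tent t₀ δ) b‖ ≤ 2 * ε := by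
  obtain ⟨δ, hδ, hF⟩ := Metric.continuousAt_iff.1 (F.continuous.continuousAt (x := t₀)) ε hε
  refine ⟨min δ η, lt_min hδ hη, min_le_right _ _, ?_, ?_⟩
  · calc (1 : ℝ) = ‖bump (tent t₀ (min δ η)) b t₀‖ := by simp [bump_apply, tent_self, hb]
      _ ≤ _ := ContinuousMap.norm_coe_le_norm _ _
  · refine (ContinuousMap.norm_le _ (by positivity)).2 fun t => ?_
    rw [ContinuousMap.mul_apply, bump_apply, mul_smul_comm, norm_smul, Complex.norm_real,
      Real.norm_eq_abs, abs_of_nonneg (tent_nonneg _ _ _)]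
    by_cases ht : min δ η ≤ |(t : ℝ) - t₀|
    · rw [tent_eq_zero t₀ (lt_min hδ hη) ht, zero_mul]; positivity
    · have h1 : dist t t₀ < δ := by
        rw [Subtype.dist_eq, Real.dist_eq]
        exact (not_le.1 ht).trans_le (min_le_left _ _)
      have h2 : ‖F t - F t₀‖ < ε := by rw [← dist_eq_norm]; exact hF h1
      have h3 : ‖F t * b‖ ≤ 2 * ε := by
        have : F t * b = (F t - F t₀) * b + F t₀ * b := by ring
        rw [this]
        calc _ ≤ ‖(F t - F t₀) * b‖ + ‖F t₀ * b‖ := norm_add_le _ _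
          _ ≤ ‖F t - F t₀‖ * ‖b‖ + ε := by gcongr; exact norm_mul_le _ _
          _ ≤ 2 * ε := by rw [hb]; linarith
      calc _ ≤ 1 * (2 * ε) := by
            gcongr
            exact tent_le_one t₀ (lt_min hδ hη) t
        _ = 2 * ε := one_mul _

/-- An element of the cone all of whose values are units of `A₀` is a unit of the cone. -/
theorem isUnit_of_forall [CompleteSpace B₀] [NormOneClass B₀] {A₀ : Subalgebra ℂ B₀}
    (h : IsClosed (A₀ : Set B₀)) (F : cone A₀)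
    (hF : ∀ t, IsUnit (⟨F.1 t, F.2.1 t⟩ : A₀)) : IsUnit F := by
  have : CompleteSpace A₀ := h.completeSpace_coe
  have : Nontrivial B₀ := NormOneClass.nontrivial
  let a : I → A₀ := fun t => ⟨F.1 t, F.2.1 t⟩
  have ha : Continuous a := F.1.continuous.subtype_mk _
  have hinv : Continuous fun t => Ring.inverse (a t) := by
    refine continuous_iff_continuousAt.2 fun t => ?_
    obtain ⟨u, hu⟩ := hF t
    have h1 : ContinuousAt Ring.inverse (a t) := by
      have := NormedRing.inverse_continuousAt u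
      rwa [hu] at this
    exact h1.comp ha.continuousAt
  let G : C(I, B₀) := ⟨fun t => ((Ring.inverse (a t) : A₀) : B₀), continuous_subtype_val.comp hinv⟩
  have hmul : ∀ t, F.1 t * G t = 1 := fun t => by
    have := congrArg (fun x : A₀ => (x : B₀)) (Ring.mul_inverse_cancel (a t) (hF t))
    exact this
  have hG : G ∈ cone A₀ := by
    refine ⟨fun t => (Ring.inverse (a t)).2, ?_⟩
    obtain ⟨c, hc⟩ := F.2.2
    have h0 := hmul 0
    rw [hc] at h0
    have hc0 : c ≠ 0 := by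
      rintro rfl
      simp at h0
    refine ⟨c⁻¹, ?_⟩
    calc G 0 = algebraMap ℂ B₀ c⁻¹ * (algebraMap ℂ B₀ c * G 0) := by
          rw [← mul_assoc, ← map_mul, inv_mul_cancel₀ hc0, map_one, one_mul]
      _ = _ := by rw [h0, mul_one]
  refine IsUnit.of_mul_eq_one (⟨G, hG⟩ : cone A₀) ?_
  apply Subtype.ext
  ext t
  exact hmul t

/-- Every non-unit of the cone is a topological divisor of zero. -/
theorem tdz_cone [CompleteSpace B₀] [NormOneClass B₀] {A₀ : Subalgebra ℂ B₀}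
    (h : IsClosed (A₀ : Set B₀)) (F : cone A₀) (hF : ¬ IsUnit F) {ε : ℝ} (hε : 0 < ε) :
    ∃ y : cone A₀, 1 ≤ ‖y‖ ∧ ‖F * y‖ ≤ ε := by
  have : CompleteSpace A₀ := h.completeSpace_coe
  let a : I → A₀ := fun t => ⟨F.1 t, F.2.1 t⟩
  have ha : Continuous a := F.1.continuous.subtype_mk _
  obtain ⟨c, hc⟩ := F.2.2
  by_cases hc0 : c = 0
  · have h0 : ‖F.1 0 * 1‖ ≤ ε / 2 := by
      rw [hc, hc0]; simp; positivity
    obtain ⟨δ, hδ, -, h1, h2⟩ := exists_bump F.1 0 1 norm_one (half_pos hε) h0 one_pos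
    refine ⟨⟨bump (tent 0 δ) 1, fun t => A₀.smul_mem A₀.one_mem _,
      ((tent 0 δ 0 : ℝ) : ℂ), by rw [bump_apply, Algebra.algebraMap_eq_smul_one]⟩, h1, ?_⟩
    calc _ = ‖F.1 * bump (tent 0 δ) 1‖ := rfl
      _ ≤ ε := by linarith
  · let U : Set I := {t | IsUnit (a t)}
    have hUo : IsOpen U := Units.isOpen.preimage ha
    have hU0 : (0 : I) ∈ U := by
      have : a 0 = algebraMap ℂ A₀ c := Subtype.ext hc
      change IsUnit (a 0)
      rw [this]
      exact (IsUnit.mk0 c hc0).map _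
    have hUne : U ≠ univ := fun hU =>
      hF (isUnit_of_forall h F fun t => (hU ▸ mem_univ t : t ∈ U))
    have hUc : ¬ IsClosed U := fun hc' => hUne (IsClopen.eq_univ ⟨hc', hUo⟩ ⟨0, hU0⟩)
    obtain ⟨t₀, ht₀, ht₀'⟩ : ∃ t₀ ∈ closure U, t₀ ∉ U := by
      by_contra hcon
      push Not at hcon
      exact hUc (closure_subset_iff_isClosed.1 hcon)
    have hcl : a t₀ ∈ closure {u : A₀ | IsUnit u} :=
      map_mem_closure ha ht₀ fun t ht => ht
    have : NormOneClass A₀ := ⟨(norm_one : ‖(1 : B₀)‖ = 1)⟩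
    obtain ⟨b, hb, hab⟩ := tdz_of_mem_closure (R := A₀) ht₀' hcl (half_pos hε)
    have ht0 : (0 : ℝ) < t₀ := by
      rcases t₀.2.1.eq_or_lt with h' | h'
      · exact absurd ((Subtype.ext h' : (0 : I) = t₀) ▸ hU0) ht₀'
      · exact h'
    obtain ⟨δ, hδ, hδ', h1, h2⟩ := exists_bump F.1 t₀ (b : B₀) hb (half_pos hε) hab ht0
    refine ⟨⟨bump (tent t₀ δ) (b : B₀), fun t => A₀.smul_mem b.2 _, 0, ?_⟩, h1, ?_⟩
    · rw [bump_apply, tent_eq_zero t₀ hδ]
      · simp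
      · simpa [abs_of_pos ht0] using hδ'
    · calc _ = ‖F.1 * bump (tent t₀ δ) (b : B₀)‖ := rfl
        _ ≤ ε := by linarith

/-- A topological divisor of zero stays non-invertible in every extension. -/
theorem not_isUnit_map {A : Type*} [NormedCommRing A] [NormedAlgebra ℂ A]
    {B : Type*} [NormedCommRing B] [NormedAlgebra ℂ B] (ι : A →ₐ[ℂ] B) (hι : IsEmbedding ι)
    {x : A} (hx : ∀ ε : ℝ, 0 < ε → ∃ y : A, 1 ≤ ‖y‖ ∧ ‖x * y‖ ≤ ε) : ¬ IsUnit (ι x) := by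
  rintro ⟨u, hu⟩
  choose y hy1 hy2 using fun n : ℕ => hx (1 / ((n : ℝ) + 1)) (by positivity)
  have h1 : Tendsto (fun n => x * y n) atTop (𝓝 0) :=
    squeeze_zero_norm hy2 tendsto_one_div_add_atTop_nhds_zero_nat
  have h2 : Tendsto (fun n => ι (x * y n)) atTop (𝓝 0) := by
    have := (hι.continuous.tendsto 0).comp h1
    rwa [map_zero] at this
  have h3 : Tendsto (fun n => ι (y n)) atTop (𝓝 (ι 0)) := by
    have := h2.const_mul ((u⁻¹ : Bˣ) : B)
    rw [mul_zero] at this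
    rw [map_zero]
    refine this.congr fun n => ?_
    rw [map_mul, ← hu, ← mul_assoc, Units.inv_mul, one_mul]
  have h4 : Tendsto y atTop (𝓝 0) := hι.isInducing.tendsto_nhds_iff.2 h3
  have h5 : Tendsto (fun n => ‖y n‖) atTop (𝓝 0) := tendsto_zero_iff_norm_tendsto_zero.1 h4
  have h6 : (1 : ℝ) ≤ 0 := ge_of_tendsto' h5 hy1
  linarith

/-- The cone has the spectral permanence property. -/
theorem spectrum_cone [CompleteSpace B₀] [NormOneClass B₀] {A₀ : Subalgebra ℂ B₀}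
    (h : IsClosed (A₀ : Set B₀))
    {B : Type*} [NormedCommRing B] [NormedAlgebra ℂ B] (ι : cone A₀ →ₐ[ℂ] B)
    (hι : IsEmbedding ι) (x : cone A₀) : spectrum ℂ x = spectrum ℂ (ι x) := by
  ext z
  rw [spectrum.mem_iff, spectrum.mem_iff, ← ι.commutes, ← map_sub]
  constructor
  · intro hz
    exact not_isUnit_map (A := cone A₀) ι hι fun ε hε => tdz_cone h _ hz hε
  · intro hz hu
    exact hz (hu.map ι)

/-- Evaluation at the base `t = 1` of the cone. -/
def evalOne (A₀ : Subalgebra ℂ B₀) : cone A₀ →ₐ[ℂ] A₀ where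
  toFun F := ⟨F.1 1, F.2.1 1⟩
  map_one' := rfl
  map_mul' _ _ := rfl
  map_zero' := rfl
  map_add' _ _ := rfl
  commutes' _ := rfl

/-- If `z ∈ A₀` is invertible in `B₀` but not in `A₀`, some character of the cone does not
extend to `C([0,1], B₀)`. -/
theorem exists_character [CompleteSpace B₀] [NormOneClass B₀] {A₀ : Subalgebra ℂ B₀}
    (h : IsClosed (A₀ : Set B₀)) (z : A₀) (hz : ¬ IsUnit z) (hz' : IsUnit (z : B₀)) :
    ∃ φ : WeakDual.characterSpace ℂ (cone A₀),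
      ∀ ψ : WeakDual.characterSpace ℂ C(I, B₀), ¬ ∀ F : cone A₀, ψ (F : C(I, B₀)) = φ F := by
  have : CompleteSpace A₀ := h.completeSpace_coe
  have : CompleteSpace (cone A₀) := (isClosed_cone h).completeSpace_coe
  obtain ⟨χ, hχ⟩ := WeakDual.CharacterSpace.exists_apply_eq_zero hz
  refine ⟨(WeakDual.CharacterSpace.equivAlgHom (𝕜 := ℂ) (A := cone A₀)).symm
    ((WeakDual.CharacterSpace.equivAlgHom χ).comp (evalOne A₀)), fun ψ hψ => ?_⟩
  let β : C(I, ℝ) := ⟨fun t => (t : ℝ), continuous_subtype_val⟩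
  have hmem : ∀ b : A₀, bump β (b : B₀) ∈ cone A₀ := fun b =>
    ⟨fun t => A₀.smul_mem b.2 _, 0, by simp [bump_apply, β]⟩
  have hval : ∀ b : A₀, ψ (bump β (b : B₀)) = χ b := fun b => by
    have := hψ ⟨_, hmem b⟩
    rw [WeakDual.CharacterSpace.equivAlgHom_symm_coe] at this
    refine this.trans ?_
    have h1 : evalOne A₀ ⟨_, hmem b⟩ = b := by
      apply Subtype.ext
      change bump β (b : B₀) 1 = b
      simp [bump_apply, β]
    rw [AlgHom.comp_apply, h1, WeakDual.CharacterSpace.equivAlgHom_coe]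
  have hfac : bump β (z : B₀) = bump β ((1 : A₀) : B₀) * ContinuousMap.const I (z : B₀) := by
    ext t
    simp [bump_apply]
  have hunit : IsUnit (ContinuousMap.const I (z : B₀)) := by
    obtain ⟨u, hu⟩ := hz'
    refine IsUnit.of_mul_eq_one (ContinuousMap.const I ((u⁻¹ : B₀ˣ) : B₀)) ?_
    ext t
    simp [← hu]
  have h1 := hval z
  rw [hfac, map_mul, hval 1, map_one, one_mul, hχ] at h1
  exact (hunit.map ψ).ne_zero h1

end Pool.Agent.P.MP_6331ea_an
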