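import Mathlib

/-!
The disc algebra, realised as the closed subalgebra of `C(ℝ/ℤ, ℂ)` generated by `z = e(x)`:
`z` is invertible in `C(ℝ/ℤ, ℂ)` and not invertible in the disc algebra.
-/

namespace Pool.Agent.P.MP_6331ea_an

open MeasureTheory AddCircle

instance factOnePos : Fact ((0 : ℝ) < 1) := ⟨one_pos⟩

/-- Continuous functions on the circle. -/
abbrev CT : Type := C(AddCircle (1 : ℝ), ℂ)

/-- The coordinate function on the circle. -/
noncomputable def zc : CT := fourier 1

/-- The disc algebra. -/
noncomputable def disc : Subalgebra ℂ CT := (Algebra.adjoin ℂ {zc}).topologicalClosure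

theorem isClosed_disc : IsClosed (disc : Set CT) := Subalgebra.isClosed_topologicalClosure _

theorem zc_mem : zc ∈ disc :=
  Subalgebra.le_topologicalClosure _ (Algebra.self_mem_adjoin_singleton ℂ zc)

theorem isUnit_zc : IsUnit zc := by
  refine IsUnit.of_mul_eq_one (fourier (-1)) ?_
  ext x
  rw [zc, ContinuousMap.mul_apply, ← fourier_add]
  simp

theorem zc_pow (n : ℕ) : zc ^ n = fourier (n : ℤ) := by
  induction n with
  | zero => ext x; simp
  | succ n ih =>
    ext x
    rw [pow_succ, ih, zc, ContinuousMap.mul_apply, ← fourier_add]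
    simp

theorem integrable_CT (f : CT) : Integrable f (haarAddCircle (T := 1)) :=
  (BoundedContinuousFunction.mkOfCompact f).integrable _

/-- The mean over the circle. -/
noncomputable def mean : CT →L[ℂ] ℂ :=
  LinearMap.mkContinuous
    { toFun := fun f => ∫ x, f x ∂(haarAddCircle (T := 1))
      map_add' := fun f g => integral_add (integrable_CT f) (integrable_CT g)
      map_smul' := fun c f => integral_smul c f } 1 fun f => by
    have := norm_integral_le_of_norm_le_const (μ := haarAddCircle (T := 1)) (f := f) (C := ‖f‖)
      (Filter.Eventually.of_forall fun x => f.norm_coe_le_norm x)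
    simpa using this

theorem mean_apply (f : CT) : mean f = ∫ x, f x ∂(haarAddCircle (T := 1)) := rfl

theorem mean_one : mean 1 = 1 := by simp [mean_apply]

theorem mean_zc_pow (n : ℕ) : mean (zc ^ (n + 1)) = 0 := by
  rw [zc_pow, mean_apply]
  exact integral_eq_zero_of_add_right_eq_neg (μ := haarAddCircle)
    (fourier_add_half_inv_index (by exact_mod_cast n.succ_ne_zero) one_pos)

theorem mean_zc_mul {g : CT} (hg : g ∈ disc) : mean (zc * g) = 0 := by
  have hcl : IsClosed {g : CT | mean (zc * g) = 0} :=
    isClosed_eq (mean.continuous.comp (continuous_const.mul continuous_id)) continuous_const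
  have hsub : (Algebra.adjoin ℂ {zc} : Set CT) ⊆ {g : CT | mean (zc * g) = 0} := by
    intro g hg
    rw [SetLike.mem_coe, Algebra.adjoin_singleton_eq_range_aeval] at hg
    obtain ⟨p, rfl⟩ := hg
    change mean (zc * Polynomial.aeval zc p) = 0
    induction p using Polynomial.induction_on' with
    | add p q hp hq => rw [map_add, mul_add, map_add, hp, hq, add_zero]
    | monomial n c =>
      rw [Polynomial.aeval_monomial, ← Algebra.smul_def, mul_smul_comm, map_smul, ← pow_succ',
        mean_zc_pow, smul_zero]
  exact closure_minimal hsub hcl hg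

theorem not_isUnit_zc : ¬ IsUnit (⟨zc, zc_mem⟩ : disc) := by
  intro h
  obtain ⟨g, hg⟩ := h.exists_right_inv
  have h1 : zc * (g : CT) = 1 := congrArg Subtype.val hg
  have h2 := mean_zc_mul g.2
  rw [h1, mean_one] at h2
  exact one_ne_zero h2

end Pool.Agent.P.MP_6331ea_an
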